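import Mathlib
import Pool.Agent.Q41.TT.InstT

/-!
# Non-negativity of a truncated theta series with triangular exponents

`F k = ∏ (1 + q ^ i) * ∑ (-1) ^ (T n) q ^ (T (n + 2 k))` has non-negative coefficients for
every `k ≥ 1`, where `T n = n (n + 1) / 2`.
-/

namespace Pool.Agent.Results.MP_1cbc82_co.NonNegativity

open PowerSeries PowerSeries.WithPiTopology Pool.Agent.Q41.TT

/-- the triangular numbers -/
def T (n : ℕ) : ℕ := n * (n + 1) / 2

/-- the series `∑ (-1) ^ (T n) q ^ (T (n + 2 k))` over `n ≥ 0` -/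
noncomputable def tail (k : ℕ) : ℤ⟦X⟧ :=
  PowerSeries.mk fun N => ∑ n ∈ Finset.range (N + 1), if T (n + 2 * k) = N then (-1) ^ T n else 0

/-- the product of the factors `1 + q ^ i` over `i ≥ 1`, a convergent product for the topology
of coefficientwise convergence (integers discrete) -/
noncomputable def prodDistinct : ℤ⟦X⟧ :=
  letI : TopologicalSpace ℤ := ⊥
  ∏' i : ℕ, (1 + X ^ (i + 1))

/-- the series `F k` -/
noncomputable def F (k : ℕ) : ℤ⟦X⟧ := prodDistinct * tail k

lemma prodDistinct_eq : prodDistinct = cnt (fun m => ¬ 2 ∣ m) := by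
  letI : TopologicalSpace ℤ := ⊥
  have h1 := Nat.Partition.powerSeriesMk_card_countRestricted_eq_tprod ℤ (m := 2) (by norm_num)
  have h2 := Nat.Partition.powerSeriesMk_card_restricted_eq_powerSeriesMk_card_countRestricted
    (R := ℤ) (m := 2) (by norm_num)
  unfold prodDistinct cnt
  rw [h2, h1]
  refine tprod_congr fun i => ?_
  simp [Finset.sum_range_succ]

lemma T_succ (n : ℕ) : T (n + 1) = T n + (n + 1) := by
  unfold T
  have : (n + 1) * (n + 1 + 1) = n * (n + 1) + 2 * (n + 1) := by ring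
  rw [this, Nat.add_mul_div_left _ _ (by norm_num)]

lemma le_T (n : ℕ) : n ≤ T n := by
  induction n with
  | zero => simp [T]
  | succ n _ => rw [T_succ]; omega

lemma T_mono {a b : ℕ} (h : a ≤ b) : T a ≤ T b := by
  unfold T
  exact Nat.div_le_div_right (Nat.mul_le_mul h (by omega))

lemma sign (n : ℕ) : (-1 : ℤ) ^ T (n + 2) = -(-1) ^ T n := by
  rw [T_succ, T_succ, pow_add, pow_add, pow_succ (-1 : ℤ) (n + 1)]
  have : ((-1 : ℤ) ^ (n + 1)) * (-1) ^ (n + 1) = 1 := by rw [← mul_pow]; simp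
  linear_combination (-(-1 : ℤ) ^ T n) * this

/-- the sum may be taken over any longer range -/
lemma coeff_tail' (k N M : ℕ) (hM : N + 1 ≤ M) :
    coeff N (tail k) = ∑ n ∈ Finset.range M, if T (n + 2 * k) = N then (-1 : ℤ) ^ T n else 0 := by
  rw [tail, coeff_mk]
  refine Finset.sum_subset (Finset.range_mono hM) fun n _ hn => ?_
  rw [if_neg]
  intro h
  have h1 := le_T (n + 2 * k)
  simp only [Finset.mem_range, not_lt] at hn
  omega

lemma tail_rec (k : ℕ) : tail k = X ^ T (2 * k) - X ^ (T (2 * k) + (2 * k + 1)) - tail (k + 1) := by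
  ext N
  rw [map_sub, map_sub, coeff_X_pow, coeff_X_pow, coeff_tail' k N (N + 3) (by omega),
    coeff_tail' (k + 1) N (N + 1) le_rfl, Finset.sum_range_succ', Finset.sum_range_succ']
  have h1 : ∀ n, (if T (n + 1 + 1 + 2 * k) = N then (-1 : ℤ) ^ T (n + 1 + 1) else 0) =
      -(if T (n + 2 * (k + 1)) = N then (-1 : ℤ) ^ T n else 0) := by
    intro n
    rw [show n + 1 + 1 + 2 * k = n + 2 * (k + 1) by ring, show n + 1 + 1 = n + 2 by ring, sign n]
    split_ifs <;> simp
  rw [Finset.sum_congr rfl fun n _ => h1 n, Finset.sum_neg_distrib]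
  rw [show 0 + 1 + 2 * k = 2 * k + 1 by ring, T_succ, show 0 + 2 * k = 2 * k by ring]
  have h2 : T 0 = 0 := rfl
  have h3 : T (0 + 1) = 1 := rfl
  rw [h2, h3]
  have h4 : (if N = T (2 * k) then (1 : ℤ) else 0) = if T (2 * k) = N then (-1) ^ 0 else 0 := by
    simp [eq_comm]
  have h5 : (if N = T (2 * k) + (2 * k + 1) then (1 : ℤ) else 0) =
      -(if T (2 * k) + (2 * k + 1) = N then (-1) ^ 1 else 0) := by
    by_cases h : N = T (2 * k) + (2 * k + 1)
    · simp [h]
    · rw [if_neg h, if_neg (Ne.symm h)]; simp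
  rw [h4, h5]
  ring

lemma tail_zero (k N : ℕ) (h : N < T (2 * k)) : coeff N (tail k) = 0 := by
  rw [tail, coeff_mk]
  refine Finset.sum_eq_zero fun n _ => ?_
  rw [if_neg]
  have := T_mono (show 2 * k ≤ n + 2 * k by omega)
  omega

lemma T_even (k : ℕ) : (T (2 * (k + 1)) : ℤ) = T (2 * k) + vj 1 4 k := by
  rw [show 2 * (k + 1) = 2 * k + 1 + 1 by ring, T_succ, T_succ]
  unfold vj; push_cast; ring

/-- Every coefficient of `F k` is non-negative, for every `k ≥ 1`. -/
theorem result (k : ℕ) (hk : 1 ≤ k) (N : ℕ) : 0 ≤ coeff N (F k) := by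
  obtain ⟨R, hR, hc⟩ := A.cnt_odd (fun m => ¬ 2 ∣ m) (by norm_num) (by norm_num) (by norm_num)
  have h1 : Nn (sr A.p * tail k) := by
    intro n
    rw [coeff_tail (S := 1) (g := 4) (p := A.p) (T := tail) (e := fun k => T (2 * k))
      (f := fun k => 2 * k + 1) (by norm_num) (by norm_num) A.p_neg
      (fun k => by unfold fj; push_cast; ring) T_even tail_rec tail_zero (n + 1) k n
      (by push_cast; have := Int.natCast_nonneg (T (2 * k)); omega)]
    rcases lt_or_ge ((n : ℤ) - T (2 * k)) 0 with h | h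
    · rw [Hf_neg (by norm_num) (by norm_num) A.p_neg _ _ _ (by positivity) h]
    · exact A.posT _ k _ hk h (by push_cast; have := Int.natCast_nonneg (T (2 * k)); omega)
  rw [F, prodDistinct_eq, hc, mul_assoc]
  exact hR.mul h1 N

end Pool.Agent.Results.MP_1cbc82_co.NonNegativity
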